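import Pool.Agent.Y136.NoRetract.Main

set_option autoImplicit false

open Pool.Agent.Results.MP_68e57a_an.SeparableNoRetract

namespace Pool.Agent.Results.MP_68e57a_an.ComplementedSubspaces

/-- Let `𝕜` be `ℝ` or `ℂ`.
(1) If the unit ball of `Z` is a uniformly continuous retract of the unit ball of `Z**`, then the
same is true for every space `X` that is isomorphic to a complemented subspace of `Z` (in particular
for `Z` with any equivalent norm).
(2) There is a separable Banach space `X` such that the unit ball of `Z` is not a uniformly continuous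
retract of the unit ball of `Z**` for any `Z` containing a complemented copy of `X`.
(3) Every separable Banach space `Y` is an M-summand of a separable Banach space `Z` such that no
space `Z'` isomorphic to `Z` has the retraction property. -/
theorem result (𝕜 : Type) [RCLike 𝕜] :
    (∀ (X Z : Type) [NormedAddCommGroup X] [NormedSpace 𝕜 X] [NormedAddCommGroup Z]
      [NormedSpace 𝕜 Z] (T : X →L[𝕜] Z) (P : Z →L[𝕜] X), (∀ x, P (T x) = x) →
      (∃ r, IsRetraction 𝕜 Z r) → ∃ r, IsRetraction 𝕜 X r) ∧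
    (∃ (X : Type) (_ : NormedAddCommGroup X) (_ : NormedSpace 𝕜 X),
      CompleteSpace X ∧ TopologicalSpace.SeparableSpace X ∧
      ∀ (Z : Type) [NormedAddCommGroup Z] [NormedSpace 𝕜 Z] (T : X →L[𝕜] Z) (P : Z →L[𝕜] X),
        (∀ x, P (T x) = x) → ¬ ∃ r, IsRetraction 𝕜 Z r) ∧
    ∀ (Y : Type) [NormedAddCommGroup Y] [NormedSpace 𝕜 Y] [CompleteSpace Y]
      [TopologicalSpace.SeparableSpace Y],
      ∃ (Z : Type) (_ : NormedAddCommGroup Z) (_ : NormedSpace 𝕜 Z),
        CompleteSpace Z ∧ TopologicalSpace.SeparableSpace Z ∧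
        (∃ (i : Y →ₗᵢ[𝕜] Z) (p : Z →L[𝕜] Y), (∀ y, p (i y) = y) ∧
          ∀ z, ‖z‖ = max ‖p z‖ ‖z - i (p z)‖) ∧
        ∀ (Z' : Type) [NormedAddCommGroup Z'] [NormedSpace 𝕜 Z'], (Z ≃L[𝕜] Z') →
          ¬ ∃ r, IsRetraction 𝕜 Z' r :=
  Pool.Agent.Y136.NoRetract.main_retract 𝕜

end Pool.Agent.Results.MP_68e57a_an.ComplementedSubspaces
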